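import Pool.Agent.Helper112.Kc.M1
import Pool.Agent.Helper112.Kc.M2
import Pool.Agent.Helper112.Kc.M4
import Pool.Agent.Helper112.Kc.M5
import Pool.Agent.Helper112.Kc.KA3
import Pool.Agent.Helper112.Kc.KA4
import Pool.Agent.Helper112.Kc.KA5
import Pool.Agent.Helper112.Kc.KA6
import Pool.Agent.Helper112.Kc.KA7
import Pool.Agent.Helper112.Kc.KA8
import Pool.Agent.Helper112.Kc.KA10
import Pool.Agent.Helper112.Kc.KA12
import Pool.Agent.Helper112.Kc.KA13
import Pool.Agent.Helper112.Kc.KA14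

set_option autoImplicit false

/-!
# Bounded domains with `C^k` boundary (any finite `k`) and plurisubharmonic defining function
# that are not Kobayashi complete
-/

namespace Pool.Agent.Results.MP_ef8879_an.FiniteSmoothness

open Filter Topology

/-- `ℂⁿ` -/
abbrev Cn (n : ℕ) : Type := EuclideanSpace ℂ (Fin n)

/-- `s` is the length of a finite chain of holomorphic discs in `Ω` from `p` to `q`
(verbatim the chains of the frozen statement S04363). -/
def ChainLength {n : ℕ} (Ω : Set (Cn n)) (p q : Cn n) (s : ℝ) : Prop :=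
  ∃ (m : ℕ) (z : Fin (m + 1) → Cn n) (f : Fin m → ℂ → Cn n) (b : Fin m → ℂ),
    z 0 = p ∧ z (Fin.last m) = q ∧
    (∀ j, DifferentiableOn ℂ (f j) (Metric.ball (0 : ℂ) 1) ∧
          Set.MapsTo (f j) (Metric.ball (0 : ℂ) 1) Ω ∧
          ‖b j‖ < 1 ∧ f j 0 = z (Fin.castSucc j) ∧ f j (b j) = z (Fin.succ j)) ∧
    s = ∑ j, Real.log ((1 + ‖b j‖) / (1 - ‖b j‖))

/-- The Kobayashi distance of `Ω ⊆ ℂⁿ`: infimum of the lengths of chains of discs. -/
noncomputable def kobayashi {n : ℕ} (Ω : Set (Cn n)) (p q : Cn n) : ℝ :=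
  sInf {s : ℝ | ChainLength Ω p q s}

/-- Kobayashi completeness: every Cauchy sequence in `Ω` converges to a point of `Ω`. -/
def KobayashiComplete {n : ℕ} (Ω : Set (Cn n)) : Prop :=
  ∀ x : ℕ → Cn n, (∀ i, x i ∈ Ω) →
    (∀ ε > 0, ∃ N : ℕ, ∀ i ≥ N, ∀ j ≥ N, kobayashi Ω (x i) (x j) < ε) →
    ∃ y ∈ Ω, Tendsto (fun i => kobayashi Ω (x i) y) atTop (𝓝 0)

/-- `ρ` is plurisubharmonic: its Levi form is nonnegative at every point of `ℂⁿ`
(`ρ` is twice differentiable below). -/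
def IsPsh {n : ℕ} (ρ : Cn n → ℝ) : Prop :=
  ∀ p w : Cn n, 0 ≤ fderiv ℝ (fderiv ℝ ρ) p w w
    + fderiv ℝ (fderiv ℝ ρ) p (Complex.I • w) (Complex.I • w)

/-- `Ω` is a bounded domain with defining function `ρ` of class `C^m`, plurisubharmonic on `ℂⁿ`,
with nonvanishing differential on the boundary. -/
structure IsPshDomain {n : ℕ} (m : ℕ) (Ω : Set (Cn n)) (ρ : Cn n → ℝ) : Prop where
  bounded : Bornology.IsBounded Ω
  connected : IsConnected Ω
  smooth : ContDiff ℝ (m : WithTop ℕ∞) ρ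
  defining : Ω = {z | ρ z < 0}
  regular : ∀ p, ρ p = 0 → fderiv ℝ ρ p ≠ 0
  psh : IsPsh ρ

/-- For every `k` there is a bounded domain in `ℂⁿ`, `n = 12 (k+2) + 1`, with a `C^{k+2}` defining
function which is plurisubharmonic on all of `ℂⁿ` and has nonvanishing differential on the boundary,
that is not complete for its Kobayashi distance. -/
theorem result (k : ℕ) :
    ∃ (Ω : Set (Cn (12 * (k + 2) + 1))) (ρ : Cn (12 * (k + 2) + 1) → ℝ),
      IsPshDomain (k + 2) Ω ρ ∧ ¬ KobayashiComplete Ω := by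
  classical
  obtain ⟨Λ, hΛ⟩ := Helper112.Kc.exists_Lam
  set k' : ℕ := k + 2 with hk'
  have hk2 : 2 ≤ k' := by omega
  set d : ℕ := 12 * k' with hdd
  have hd : 0 < d := by omega
  have hd3 : 3 ≤ d := by omega
  obtain ⟨hUs, ⟨S, hS0, hS⟩, hUL⟩ := Helper112.Kc.UU_facts Λ hΛ (k := k') (d := d) hk2 le_rfl hd
  have hUdiff : Differentiable ℝ (Helper112.Kc.UU Λ d hd) :=
    hUs.differentiable (by
      have : (1 : WithTop ℕ∞) ≤ (k' : WithTop ℕ∞) := by exact_mod_cast (by omega : 1 ≤ k')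
      intro h0
      rw [h0] at this
      exact absurd this (by simp))
  have hUcont : Continuous (Helper112.Kc.UU Λ d hd) := hUs.continuous
  obtain ⟨M, hM0, hM⟩ := Helper112.Kc.zt_bound Λ hΛ hd3 hd hUdiff S hS
  -- the scale
  set ε : ℝ := 1 / (20 * (1 + S + |Helper112.Kc.UU Λ d hd 0| + M)) with hε
  have hden : 0 < 20 * (1 + S + |Helper112.Kc.UU Λ d hd 0| + M) := by positivity
  have hε0 : 0 < ε := by positivity
  have hεS : ε * S ≤ 1 / 20 := by
    rw [hε, div_mul_eq_mul_div, one_mul, div_le_div_iff₀ hden (by norm_num)]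
    nlinarith [abs_nonneg (Helper112.Kc.UU Λ d hd 0)]
  have hεU : ε * |Helper112.Kc.UU Λ d hd 0| ≤ 1 / 20 := by
    rw [hε, div_mul_eq_mul_div, one_mul, div_le_div_iff₀ hden (by norm_num)]
    nlinarith [abs_nonneg (Helper112.Kc.UU Λ d hd 0)]
  have hεM : ε * M ≤ 1 := by
    rw [hε, div_mul_eq_mul_div, one_mul, div_le_one hden]
    nlinarith [abs_nonneg (Helper112.Kc.UU Λ d hd 0)]
  -- the potential and the domain
  set u : EuclideanSpace ℂ (Fin (d + 1)) → ℝ := fun p => ε * Helper112.Kc.UU Λ d hd p with hu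
  set B : ℝ := 2 * (d + 1) with hB
  have hB2 : 2 ≤ B := by
    have : (0 : ℝ) ≤ d := by positivity
    rw [hB]; linarith
  have hus : ContDiff ℝ (k' : WithTop ℕ∞) u := contDiff_const.mul hUs
  have hufd : ∀ p, fderiv ℝ u p = ε • fderiv ℝ (Helper112.Kc.UU Λ d hd) p := by
    intro p
    have : u = fun q => ε • Helper112.Kc.UU Λ d hd q := by ext q; simp [hu]
    rw [this]
    exact fderiv_const_smul (hUdiff p) ε
  have hu1 : ∀ p, ‖fderiv ℝ u p‖ ≤ 1 / 20 := by
    intro p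
    rw [hufd, norm_smul, Real.norm_of_nonneg hε0.le]
    exact (mul_le_mul_of_nonneg_left (hS p) hε0.le).trans hεS
  have hu0 : |u 0| ≤ 1 / 20 := by
    simp only [hu, abs_mul, abs_of_pos hε0]
    exact hεU
  have huL : ∀ p w, 0 ≤ fderiv ℝ (fderiv ℝ u) p w w
        + fderiv ℝ (fderiv ℝ u) p (Complex.I • w) (Complex.I • w) := by
    intro p w
    have h2 : fderiv ℝ (fderiv ℝ u) p = ε • fderiv ℝ (fderiv ℝ (Helper112.Kc.UU Λ d hd)) p := by
      have e : fderiv ℝ u = fun q => ε • fderiv ℝ (Helper112.Kc.UU Λ d hd) q := by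
        ext1 q; exact hufd q
      rw [e]
      have : ContDiff ℝ 1 (fderiv ℝ (Helper112.Kc.UU Λ d hd)) :=
        hUs.fderiv_right (by
          have : ((1 : ℕ) + 1 : ℕ) ≤ k' := by omega
          exact_mod_cast this)
      exact (((this.differentiable one_ne_zero) p).hasFDerivAt.const_smul ε).fderiv
    rw [h2]
    have := hUL p w
    simp only [ContinuousLinearMap.smul_apply, smul_eq_mul]
    nlinarith
  obtain ⟨hrs, hrL⟩ := Helper112.Kc.rho_smooth u k' (k' + 1) hk2 (by omega) B hus huL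
  have h1k : (1 : WithTop ℕ∞) ≤ (k' : WithTop ℕ∞) := by exact_mod_cast (by omega : 1 ≤ k')
  obtain ⟨hbd, hconn, hgrad⟩ := Helper112.Kc.rho_geom u (k' + 1) (by omega) B hB2
    (hus.of_le h1k) hu1 hu0 (hrs.of_le h1k)
  set Ω : Set (EuclideanSpace ℂ (Fin (d + 1))) := {p | Helper112.Kc.rho u B (k' + 1) p < 0} with hΩ
  have hopen : IsOpen Ω := isOpen_lt hrs.continuous continuous_const
  -- points with small norm
  have hcap : ∀ p : EuclideanSpace ℂ (Fin (d + 1)), ‖p‖ ≤ B →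
      Helper112.Kc.rho u B (k' + 1) p = (p (Fin.last d)).re + ε * Helper112.Kc.UU Λ d hd p := by
    intro p hp
    have : ‖p‖ ^ 2 - B ^ 2 ≤ 0 := by nlinarith [norm_nonneg p]
    simp [Helper112.Kc.rho, Helper112.Kc.QQ, max_eq_right this, hu]
  have hzt : ∀ j lam, ‖lam‖ ≤ 1 → ‖(ε : ℂ) * Helper112.Kc.zt Λ d j hd lam‖ ≤ 1 := by
    intro j lam hl
    rw [norm_mul, Complex.norm_real, Real.norm_of_nonneg hε0.le]
    exact (mul_le_mul_of_nonneg_left (hM j lam hl) hε0.le).trans hεM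
  have hmaps : ∀ j, Set.MapsTo (Helper112.Kc.disc Λ d hd ε j) (Metric.ball (0 : ℂ) 1) Ω := by
    intro j lam hl
    have hl' : ‖lam‖ < 1 := by simpa using hl
    have hn := Helper112.Kc.disc_norm Λ hd ε j lam hl'.le (hzt j lam hl'.le)
    show Helper112.Kc.rho u B (k' + 1) _ < 0
    rw [hcap _ hn]
    exact Helper112.Kc.disc_neg Λ hΛ hd3 hd ε hε0 j lam hl'
  set x : ℕ → EuclideanSpace ℂ (Fin (d + 1)) := Helper112.Kc.xx Λ d hd ε with hx
  have hxΩ : ∀ i, x i ∈ Ω := by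
    intro i
    have := hmaps i (show (0 : ℂ) ∈ Metric.ball (0 : ℂ) 1 by simp)
    rwa [Helper112.Kc.disc_zero] at this
  have hxn : ∀ i, ‖x i‖ ≤ B := by
    intro i
    have := Helper112.Kc.disc_norm Λ hd ε i 0 (by simp) (hzt i 0 (by simp))
    rwa [Helper112.Kc.disc_zero] at this
  have hkob : ∀ p q, kobayashi Ω p q = Helper112.Kc.kob Ω p q := fun p q => rfl
  refine ⟨Ω, Helper112.Kc.rho u B (k' + 1), ⟨hbd, hconn, hrs, rfl, hgrad, hrL⟩, ?_⟩
  intro hcomp
  have hcauchy : ∀ ε > 0, ∃ N : ℕ, ∀ i ≥ N, ∀ j ≥ N, kobayashi Ω (x i) (x j) < ε := by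
    intro e he
    have hcc : ∀ j, 0 ≤ Helper112.Kc.cc j ∧ Helper112.Kc.cc j ≤ 1 / 2 := fun j =>
      ⟨(Helper112.Kc.cc_pos j).le, (Helper112.Kc.cc_le j).trans (by norm_num)⟩
    obtain ⟨N, hN⟩ := Helper112.Kc.kob_cauchy Ω x (Helper112.Kc.disc Λ d hd ε) Helper112.Kc.cc hcc
      Helper112.Kc.summable_cc (fun j => Helper112.Kc.disc_hol Λ hd ε j) hmaps
      (fun j => Helper112.Kc.disc_zero Λ hd ε j) (fun j => Helper112.Kc.disc_end Λ hΛ hd3 hd ε j) e he
    exact ⟨N, fun i hi j hj => by rw [hkob]; exact hN i hi j hj⟩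
  obtain ⟨y, hyΩ, hy⟩ := hcomp x hxΩ hcauchy
  · obtain ⟨C, hC, hlow⟩ := Helper112.Kc.kob_lower Ω hbd hopen hconn
    obtain ⟨xs, hxs, hxs0⟩ := Helper112.Kc.xx_limit Λ hΛ hd3 hd ε hUcont
    have hlim : Tendsto (fun i => ‖x i - y‖) atTop (𝓝 0) := by
      refine squeeze_zero (fun _ => norm_nonneg _) (fun i => hlow (x i) (hxΩ i) y hyΩ) ?_
      have : Tendsto (fun i => C * kobayashi Ω (x i) y) atTop (𝓝 (C * 0)) := hy.const_mul C
      simpa [hkob] using this
    have hy2 : Tendsto x atTop (𝓝 y) := tendsto_iff_norm_sub_tendsto_zero.2 hlim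
    have heq : xs = y := tendsto_nhds_unique hxs hy2
    have hxsn : ‖xs‖ ≤ B := le_of_tendsto hxs.norm (Eventually.of_forall hxn)
    have h0 : Helper112.Kc.rho u B (k' + 1) xs = 0 := by rw [hcap _ hxsn]; exact hxs0
    rw [heq] at h0
    have : Helper112.Kc.rho u B (k' + 1) y < 0 := hyΩ
    linarith

end Pool.Agent.Results.MP_ef8879_an.FiniteSmoothness
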